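import Mathlib
import Pool.Agent.Q64.HT.Defs
import Pool.Agent.TH132.A.Defs

/-!
# The numerical Hodge standard conjecture for products with abelian varieties: definitions
-/

set_option autoImplicit false

open CategoryTheory AlgebraicGeometry

namespace Pool.Agent.Q64.NH

open Polynomial Pool.Agent.H914 Pool.Agent.H914.VarClass Pool.Agent.H914.VarClass.Obj
  Pool.Agent.H914.WeilCohomology Pool.Agent.H281R3.HT Pool.Agent.W552 Pool.Agent.W484.HS
  Pool.Agent.Q64.HT Pool.Agent.TH132.A

/-- `NumHodgeReduces P q f`: the following holds for every algebraically closed field `k`, every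
class `𝒱` of smooth projective varieties over `k` closed under products, every Weil cohomology `W`
with algebraically closed coefficient field, every `A` with an endomorphism `φ` which is the
Frobenius endomorphism, relative to the field with `q ^ s` elements, of an abelian variety as in
`IsAbelianFrobenius` with the polynomials `f`, and every `B` with a Frobenius endomorphism `ψ`
relative to the same field whose eigenvalues are roots of a polynomial with the property `P`, if the
class of the fundamental cycle of `A × B` is not zero and numerical and homological equivalence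
coincide on `B` (for abelian varieties: for suitable `ℓ`, by the theorem of Clozel):

* each divisor `L` on `A × B` is homologically equivalent to a sum `D × B + A × M` of divisors from
  the factors;
* if `L` satisfies hard Lefschetz for `A × B` then `D` satisfies hard Lefschetz for `A` and `M`
  satisfies hard Lefschetz for `B`;
* if `D` is positive on the classes on `A` generated by divisors (known for ample `D`), then the
  numerical Hodge standard conjecture (`NumHodge`) holds for `A × B` and `L` if and only if it holds
  for `B` and `M`. -/
def NumHodgeReduces (P : ℚ[X] → Prop) (q : ℕ) {I : Type} (f : I → ℤ[X]) : Prop :=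
  ∀ (k : Type) [Field k] [IsAlgClosed k] (𝒱 : VarClass k) (ops : CycleOps 𝒱)
    (W : WeilCohomology.{0, 0} ops) [IsAlgClosed W.K] (s : ℕ), 0 < s →
    ∀ (A : Polarized 𝒱) (B : 𝒱.Obj) (φ : A.X ⟶ A.X) (ψ : B ⟶ B),
      IsAbelianFrobenius W q s f A φ → EigenvaluesIn P (W.map ψ) →
      FrobeniusOnCycles W (A.X.prod B) (pairMap φ ψ) (q ^ s) →
      ¬ HomEq W (A.X.prod B).V.fundCycle 0 → HomEqNum W B →
      ∀ L, (A.X.prod B).IsCyc 1 L →
        (∃ D M, IsSumOf W L D M) ∧ (HardLefschetz W (A.X.prod B) L → ∀ D M, IsSumOf W L D M →
          HardLefschetz W A.X D ∧ HardLefschetz W B M ∧ (LefschetzPositive W A.X D →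
            (NumHodge ops (A.X.prod B) L ↔ NumHodge ops B M)))

end Pool.Agent.Q64.NH
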