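import Mathlib
import Pool.Agent.Q64.NH.Defs
import Pool.Agent.Q64.HT.Main
import Pool.Agent.Q70.CT.Hodge
import Pool.Agent.Q64.N.Family

/-!
# The numerical Hodge standard conjecture for products with abelian varieties: proofs
-/

set_option autoImplicit false
set_option linter.unusedSectionVars false
set_option linter.unusedVariables false

open CategoryTheory AlgebraicGeometry

universe u v

namespace Pool.Agent.Q64.NH

open Module Polynomial Pool.Agent.H914 Pool.Agent.H914.VarClass Pool.Agent.H914.VarClass.Obj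
  Pool.Agent.H914.WeilCohomology Pool.Agent.H281R3.HT Pool.Agent.W552 Pool.Agent.W484.HS
  Pool.Agent.TH132.A Pool.Agent.Y1.CT Pool.Agent.Y1.SC Pool.Agent.Y103 Pool.Agent.Q64.HT
  Pool.Agent.Q64.N Pool.Agent.Q64.L

theorem numHodgeReduces {P : ℚ[X] → Prop} {q : ℕ} (hq : 1 < q) {I : Type} {f : I → ℤ[X]}
    (hG : Good P q f) : NumHodgeReduces P q f := by
  intro k _ _ 𝒱 ops W _ s hs A B φ ψ hA hB hF hne hnumB L hL
  have hR := noRel_of_good hG
  obtain ⟨χ, hχ0, hχ1, hχP⟩ := hB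
  have hZ : ∃ χ : ℚ[X], χ ≠ 0 ∧ (∀ (ρ : W.K) (c : W.H B), c ≠ 0 → W.map ψ c = ρ • c →
      aeval ρ χ = 0) ∧ ∀ ρ : ℂ, aeval ρ χ = 0 → RootOf P ρ :=
    ⟨χ, hχ0, hχ1, rootsIn_of_good hG χ hχP⟩
  have hnum : HomEqNum W A.X := Y1.SC.homEqNum_abelian hq hR hs hA
  have hcyc : ∀ (i : ℕ) (z), (A.X.prod B).IsCyc i z → W.cl (A.X.prod B) z ∈ mixSpan W A.X B :=
    fun i z hz => Y1.SC.alg_mem_mix hq hR hs hA hZ hF i z hz
  have hmix : ∀ z, AS W (A.X.prod B) z → z ∈ mixSpan W A.X B := by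
    intro z hz
    refine AS.ind (p := fun z => z ∈ mixSpan W A.X B) ?_
      (fun x y hx hy => Submodule.add_mem _ hx hy) hz
    rintro c _ ⟨z, hz, rfl⟩
    exact hcyc c z hz
  have htens : ∀ z, AS W (A.X.prod B) z → z ∈ tens W A.X B := fun z hz =>
    mem_tens hnum hz (hmix z hz)
  have hprod : HomEqNum W (A.X.prod B) := homEqNum_prod hnum hnumB hcyc
  obtain ⟨-, h2, h3⟩ := conjectureATimes_of hq hR k 𝒱 ops W s hs A B φ ψ hA hZ hF
  refine ⟨h2 L hL, fun hHL D M hS => ?_⟩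
  obtain ⟨hHD, hHB, -⟩ := h3 hne L D M hL hS hHL
  refine ⟨hHD, hHB, fun hpos => ?_⟩
  have hpair : ExactPairK (fun z : {z : W.K // ∃ i, aeval z (f i) = 0} => (z : W.K) ^ s)
      ((q : W.K) ^ s) 1 :=
    Y1.CT.exactPair_field f hR.monic q s (X - 1 : ℚ[X]) (Polynomial.X_sub_C_ne_zero 1)
      (fun ρ hρ => hR.pair s hs ρ (root_one hR ρ hρ)) (1 : W.K) (by simp)
  have hHT : HodgeType W A.X D := fun j hj z hz h1 h2 =>
    hpos j hj z hz (alg_mem_lef (by omega) hA hpair j z hz) h1 h2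
  obtain ⟨hD, hM, hDM⟩ := hS
  rw [HomEq, W.cl_fund, map_zero] at hne
  have hX1 : (1 : W.H A.X) ≠ 0 := by
    intro h0
    apply hne
    rw [← map_one (W.map (fst A.X B)), h0, map_zero]
  obtain ⟨α, Fα, hα⟩ := exists_lw hD hHD
  obtain ⟨γ, Gγ, hγ⟩ := exists_lw hM hHB
  have hst : Stable W A.X α := stable_of_lefschetzA Fα.hD Fα.sl2
    (lefschetzA_of_D Fα.hD hHD hnum)
  have hsum : (A.X.prod B).IsCyc 1 (ops.pull (fst A.X B) D + ops.pull (snd A.X B) M) :=
    SmVar.IsCyc.add (ops.pull_mem _ hD) (ops.pull_mem _ hM)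
  constructor
  · intro h
    exact num_of_hodge hM hnumB (hodge_of_prod Fα Gγ hHT hX1
      (Q70.CT.hodgeType_congr hL hsum hDM (hodge_of_num hL hprod h)))
  · intro h
    exact num_of_hodge hL hprod (Q70.CT.hodgeType_congr hsum hL hDM.symm
      (hodge_prod_of htens Fα hα hHD hst hHT Gγ hγ (hodge_of_num hM hnumB h)))

end Pool.Agent.Q64.NH
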